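import Pool.Agent.helper55.GL.Spec

/-! # Module gl:ISO (helper60) -/

set_option autoImplicit false

namespace Pool.Agent.GL

open SimpleGraph

theorem ISO_ext {V : Type} [Fintype V] (H : SimpleGraph V) (c : V → Bool) (v : V)
    (hv : ∀ b, ¬ H.Adj v b) (n : ℕ) (hn : Fintype.card V ≤ n) (B : Finset (Fin n × Fin n))
    (h : Cp H c {v}ᶜ B) : Cp H c Set.univ B := by
  classical
  obtain ⟨φ, h1, h2⟩ := h
  have hex : ∃ t : Fin n, t ∉ ((Finset.univ : Finset V).erase v).image φ := by
    by_contra hcon
    push Not at hcon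
    have e1 : (Finset.univ : Finset (Fin n)) ⊆ ((Finset.univ : Finset V).erase v).image φ :=
      fun t _ => hcon t
    have e2 := Finset.card_le_card e1
    have e3 : (((Finset.univ : Finset V).erase v).image φ).card ≤
        ((Finset.univ : Finset V).erase v).card := Finset.card_image_le
    have e4 : ((Finset.univ : Finset V).erase v).card < (Finset.univ : Finset V).card :=
      Finset.card_erase_lt_of_mem (Finset.mem_univ v)
    rw [Finset.card_univ, Fintype.card_fin] at e2
    rw [Finset.card_univ] at e4
    omega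
  obtain ⟨t, ht⟩ := hex
  have ht' : ∀ a, a ≠ v → φ a ≠ t := by
    intro a ha he
    exact ht (Finset.mem_image.2 ⟨a, Finset.mem_erase.2 ⟨ha, Finset.mem_univ a⟩, he⟩)
  refine ⟨Function.update φ v t, ?_, ?_⟩
  · intro a _ b _ hc he
    by_cases ha : a = v
    · by_cases hb : b = v
      · rw [ha, hb]
      · exfalso
        rw [ha, Function.update_self, Function.update_of_ne hb] at he
        exact ht' b hb he.symm
    · by_cases hb : b = v
      · exfalso
        rw [hb, Function.update_self, Function.update_of_ne ha] at he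
        exact ht' a ha he
      · rw [Function.update_of_ne ha, Function.update_of_ne hb] at he
        exact h1 a ha b hb hc he
  · intro a _ b _ hab hca hcb
    have ha : a ≠ v := by
      intro h0
      rw [h0] at hab
      exact hv b hab
    have hb : b ≠ v := by
      intro h0
      rw [h0] at hab
      exact hv a hab.symm
    rw [Function.update_of_ne ha, Function.update_of_ne hb]
    exact h2 a ha b hb hab hca hcb

theorem ISO (hBAS : BAS_stmt) (hRST : RST_stmt) : ISO_stmt := by
  intro V _ H c v hv hQ
  obtain ⟨C, N, hC⟩ := hQ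
  refine ⟨C, N + Fintype.card V + 1, ?_⟩
  intro n hn
  have e1 : exs n H c Set.univ ≤ exs n H c {v}ᶜ := by
    rw [(hBAS V H c).1 n Set.univ]
    intro B hB
    refine ((hBAS V H c).1 n {v}ᶜ (exs n H c {v}ᶜ)).1 le_rfl B ?_
    intro hcp
    exact hB (ISO_ext H c v hv n (by omega) B hcp)
  have e2 : exs n (H.induce {v}ᶜ) (fun a => c a) Set.univ = exs n H c {v}ᶜ :=
    hRST V H c {v}ᶜ n (by omega)
  have e3 := hC n (by omega)
  have e4 : ex n (H.induce {v}ᶜ) ≤ ex n H :=
    IsContained.extremalNumber_le ⟨SimpleGraph.Copy.induce H {v}ᶜ⟩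
  rw [e2] at e3
  exact (e1.trans e3).trans (Nat.mul_le_mul_left C e4)

end Pool.Agent.GL
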